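import Pool.Agent.Helper8.POS.Cons
import Pool.Agent.Helper52.Moeller.HOrbit

/-!
# The critical exponent is one

If the exceptional set `E(d, m, R)` is infinite then for every large `e ∈ E` at least `c x / e` of the integers up to `x` have
an orbit which stays above `e / K`: so the number of the integers up to `x` whose orbit stays above `z` is not `o(x / z)`.
-/

set_option autoImplicit false

namespace Pool.Agent.Helper28.CX

open Finset Pool.Agent.Helper68.Moeller Pool.Agent.Helper52.Tao Pool.Agent.Helper91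
  Pool.Agent.Helper8 Pool.Agent.Helper8.PRE

variable {d m p v s0 : ℕ} {r : ℤ → ℤ}

/-- The first point not divisible by `d` is not larger than the start. -/
theorem exists_not_dvd_le (hd : 2 ≤ d) {n : ℤ} (h : ∀ k, 1 ≤ (T d m r)^[k] n) :
    ∃ t, ¬ (d : ℤ) ∣ (T d m r)^[t] n ∧ (T d m r)^[t] n ≤ n := by
  classical
  have hex := exists_not_dvd hd h
  refine ⟨Nat.find hex, Nat.find_spec hex, ?_⟩
  have key : ∀ i ≤ Nat.find hex, (T d m r)^[i] n ≤ n := by
    intro i
    induction i with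
    | zero => intro _; simp
    | succ i ih =>
      intro hi
      have h1 := ih (by omega)
      have h2 : (d : ℤ) ∣ (T d m r)^[i] n := by
        have := Nat.find_min hex (m := i) (by omega)
        exact not_not.1 this
      have h3 := h i
      have h4 := h (i + 1)
      rw [Function.iterate_succ_apply'] at h4 ⊢
      have h5 := d_mul_T_of_dvd (m := m) (r := r) h2
      have hd' : (2 : ℤ) ≤ d := by exact_mod_cast hd
      nlinarith
  exact key _ le_rfl

/-- A crude bound for one step. -/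
theorem T_le (hd : 2 ≤ d) (hr : Admissible d m r) {B₁ : ℤ} (hB₁ : 0 ≤ B₁)
    (hrB : ∀ j : ℤ, 0 < j → j < (d : ℤ) → |r j| ≤ B₁) {x : ℤ} (hx : 1 ≤ x) (hTx : 1 ≤ T d m r x) :
    T d m r x ≤ ((m : ℤ) + B₁ + 1) * x := by
  have hd' : (2 : ℤ) ≤ d := by exact_mod_cast hd
  have hm0 : (0 : ℤ) ≤ m := by positivity
  by_cases hdx : (d : ℤ) ∣ x
  · have h5 := d_mul_T_of_dvd (m := m) (r := r) hdx
    nlinarith [mul_nonneg hm0 (by omega : (0 : ℤ) ≤ x), mul_nonneg hB₁ (by omega : (0 : ℤ) ≤ x)]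
  · have h5 := d_mul_T_of_not_dvd hr hd hdx
    obtain ⟨e1, e2⟩ := emod_pos hd hdx
    have h6 := hrB _ e1 e2
    rw [abs_le] at h6
    nlinarith [mul_nonneg hm0 (by omega : (0 : ℤ) ≤ x), mul_nonneg hB₁ (by omega : (0 : ℤ) ≤ x - 1)]

/-- A positive orbit has many points not divisible by `d`, with a bound for the last one. -/
theorem exists_sg_le (hd : 2 ≤ d) (hr : Admissible d m r) {B₁ : ℤ} (hB₁ : 0 ≤ B₁)
    (hrB : ∀ j : ℤ, 0 < j → j < (d : ℤ) → |r j| ≤ B₁) {n : ℤ}
    (h : ∀ k, 1 ≤ (T d m r)^[k] n) (s : ℕ) :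
    ∃ t, s ≤ sg (wd d m r t n) ∧ (T d m r)^[t] n ≤ ((m : ℤ) + B₁ + 1) ^ s * n := by
  induction s with
  | zero => exact ⟨0, by simp, by simp⟩
  | succ s ih =>
    obtain ⟨t, ht, ht'⟩ := ih
    have h' : ∀ k, 1 ≤ (T d m r)^[k] ((T d m r)^[t] n) := by
      intro k
      rw [← Function.iterate_add_apply]
      exact h _
    obtain ⟨j, hj, hj'⟩ := exists_not_dvd_le hd h'
    rw [← Function.iterate_add_apply] at hj hj'
    refine ⟨j + t + 1, ?_, ?_⟩
    · rw [← PL.card_eq_sg hd] at ht ⊢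
      have hsub : insert (j + t) ((range t).filter (fun i => ¬ (d : ℤ) ∣ (T d m r)^[i] n)) ⊆
          (range (j + t + 1)).filter (fun i => ¬ (d : ℤ) ∣ (T d m r)^[i] n) := by
        intro x hx
        rcases mem_insert.1 hx with rfl | hx
        · exact mem_filter.2 ⟨mem_range.2 (by omega), hj⟩
        · obtain ⟨h1, h2⟩ := mem_filter.1 hx
          exact mem_filter.2 ⟨mem_range.2 (by have := mem_range.1 h1; omega), h2⟩
      have hc := card_le_card hsub
      rw [card_insert_of_notMem (by simp)] at hc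
      omega
    · have h1 := h (j + t)
      have h2 := h (j + t + 1)
      rw [Function.iterate_succ_apply'] at h2 ⊢
      have h3 := T_le hd hr hB₁ hrB h1 h2
      have hm0 : (0 : ℤ) ≤ m := by positivity
      have hM : (0 : ℤ) ≤ (m : ℤ) + B₁ + 1 := by omega
      calc T d m r ((T d m r)^[j + t] n) ≤ ((m : ℤ) + B₁ + 1) * (T d m r)^[j + t] n := h3
        _ ≤ ((m : ℤ) + B₁ + 1) * (((m : ℤ) + B₁ + 1) ^ s * n) :=
            mul_le_mul_of_nonneg_left (hj'.trans ht') hM
        _ = ((m : ℤ) + B₁ + 1) ^ (s + 1) * n := by ring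

/-- A positive orbit contains an integer which is not dead, and not much larger than the start. -/
theorem exists_alive_le (hB : Base d m p v s0 r) {B₁ : ℤ} (hB₁ : 0 ≤ B₁)
    (hrB : ∀ j : ℤ, 0 < j → j < (d : ℤ) → |r j| ≤ B₁) {n : ℤ} (h : ∀ k, 1 ≤ (T d m r)^[k] n) :
    ∃ t, ¬ PL.Dead d m r ((T d m r)^[t] n) ∧ (T d m r)^[t] n ≤ ((m : ℤ) + B₁ + 1) ^ s0 * n := by
  obtain ⟨t, ht, ht'⟩ := exists_sg_le hB.hd hB.hr hB₁ hrB h s0
  refine ⟨t, hB.c2 _ ?_, ht'⟩
  obtain ⟨h1, -⟩ := PL.hit_wd hB.hd hB.hdm hB.hr t n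
  have h2 : PL.Hit d m r s0 ((T d m r)^[t] n) (wd d m r t n) :=
    (pow_dvd_pow _ ht).trans h1
  refine lt_of_lt_of_le ?_ (PL.nut_le_nu t s0 _)
  unfold PL.nut
  have hd0 : (0 : ℝ) < d := by
    have := hB.hd
    exact_mod_cast (by omega : 0 < d)
  exact div_pos ((PL.nua_cW_pos_iff t _).2 ⟨_, wd_mem hB.hd r t n, ht, h2⟩) (by positivity)

/-- The positive integers `n ≤ x` whose `T`-orbit stays above `z`. -/
def Up (d m : ℕ) (r : ℤ → ℤ) (z x : ℝ) : Set ℤ :=
  {n : ℤ | 0 < n ∧ (n : ℝ) ≤ x ∧ ∀ k : ℕ, z < ((T d m r)^[k] n : ℝ)}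

theorem Up_finite (z x : ℝ) : (Up d m r z x).Finite := by
  refine (Set.finite_Icc (1 : ℤ) ⌊x⌋).subset ?_
  rintro n ⟨h1, h2, -⟩
  exact ⟨h1, Int.le_floor.2 h2⟩

/-- **Every large element of `E` gives many orbits which stay up.** -/
theorem lower (hd : 2 ≤ d) (hdm : d < m) (hco : Nat.Coprime m d)
    (hw : (m : ℝ) ≤ (d : ℝ) ^ ((d : ℝ) / ((d : ℝ) - 1))) (hr : Admissible d m r) :
    ∃ (c K : ℝ) (B : ℤ), 0 < c ∧ 1 ≤ K ∧ 0 ≤ B ∧ ∀ e ∈ E d m r, B < e →
      ∃ X₀ : ℝ, ∀ X : ℝ, X₀ ≤ X → c * X / e ≤ ((Up d m r (e / K) X).ncard : ℝ) := by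
  obtain ⟨p, v, s0, hB⟩ := POS.exists_Base (r := r) hd hdm hco hw hr
  obtain ⟨c, K, hc, hK, h⟩ := POS.density_path hd hdm hco hw hr
  obtain ⟨B₁, hB₁, hrB⟩ := exists_resid_bound d r
  have hK1 : (1 : ℝ) ≤ K := by exact_mod_cast hK
  have hK0 : (0 : ℝ) < K := by linarith
  set M : ℤ := ((m : ℤ) + B₁ + 1) ^ s0 with hM
  have hm0 : (0 : ℤ) ≤ m := by positivity
  have hM1 : 1 ≤ M := one_le_pow₀ (by omega)
  have hM1' : (1 : ℝ) ≤ M := by exact_mod_cast hM1
  have hm1 : 1 ≤ m := by omega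
  refine ⟨c / M, 2 * K, B₁, by positivity, by linarith, hB₁, fun e he heB => ?_⟩
  have hge := E_T hr hd hm1 hrB he heB
  have he1 : 1 ≤ e := by omega
  have he0 : (0 : ℝ) < e := by exact_mod_cast (by omega : 0 < e)
  obtain ⟨t, ht, ht'⟩ := exists_alive_le hB hB₁ hrB (n := e) (fun k => by
    have := hge k
    omega)
  set a : ℤ := (T d m r)^[t] e with ha
  have hea : e ≤ a := hge t
  have hea' : (e : ℝ) ≤ a := by exact_mod_cast hea
  have ha0 : (0 : ℝ) < a := by linarith
  have haM : (a : ℝ) ≤ M * e := by exact_mod_cast ht'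
  refine ⟨a, fun X hX => ?_⟩
  have h1 := h a X (by omega) ht hX
  have hX0 : 0 ≤ X := by linarith
  have h2 : c / M * X / e ≤ c * (X / a) := by
    have h3 : X / (M * e) ≤ X / a := div_le_div_of_nonneg_left hX0 ha0 haM
    calc c / M * X / e = c * (X / (M * e)) := by
          field_simp
      _ ≤ c * (X / a) := by gcongr
  refine (h2.trans h1).trans ?_
  have hsub : POS.Pth d m r (a / K) a X ⊆ Up d m r (e / (2 * K)) X := by
    rintro n ⟨⟨u, hu1, hu2⟩, hn1, hn2⟩
    refine ⟨hn1, hn2, fun k => ?_⟩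
    have h4 : (e : ℝ) / (2 * K) < e / K := by
      apply div_lt_div_of_pos_left he0 hK0
      linarith
    have h5 : (e : ℝ) / K ≤ a / K := by gcongr
    have h6 : (e : ℝ) / K ≤ e := div_le_self he0.le hK1
    rcases le_total k u with hk | hk
    · have := hu2 k hk
      linarith
    · obtain ⟨j, rfl⟩ := Nat.exists_eq_add_of_le hk
      rw [Nat.add_comm u j, Function.iterate_add_apply, hu1, ha, ← Function.iterate_add_apply]
      have h7 : (e : ℝ) ≤ ((T d m r)^[j + t] e : ℝ) := by exact_mod_cast hge (j + t)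
      linarith
  exact_mod_cast Set.ncard_le_ncard hsub (Up_finite _ _)

/-- The points of the `H`-orbit are points of the `T`-orbit. -/
theorem H_mem_T (hr : Admissible d m r) (hd : 2 ≤ d) {y : ℤ} (hy : ¬ (d : ℤ) ∣ y) (k : ℕ)
    (hk : ∀ i < k, r ((H d m r)^[i] y % (d : ℤ)) < (m : ℤ) * (H d m r)^[i] y) :
    ∃ i : ℕ, (H d m r)^[k] y = (T d m r)^[i] y ∧ ¬ (d : ℤ) ∣ (T d m r)^[i] y := by
  induction k with
  | zero => exact ⟨0, rfl, hy⟩
  | succ k ih =>
    obtain ⟨i, hi1, hi2⟩ := ih fun i hi => hk i (by omega)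
    have hdef := hk k (by omega)
    rw [hi1] at hdef
    obtain ⟨h1, c, hc⟩ := H_spec hr hd hi2 hdef
    refine ⟨c + (i + 1), ?_, ?_⟩
    · rw [Function.iterate_succ_apply', hi1, Function.iterate_add_apply,
        Function.iterate_succ_apply' _ i, hc, st_iter_dvd hd]
    · rw [Function.iterate_add_apply, Function.iterate_succ_apply' _ i, hc, st_iter_dvd hd]
      exact h1

/-- The elements not divisible by `d`. -/
def UpD (d m : ℕ) (r : ℤ → ℤ) (z x : ℝ) : Set ℤ := {n : ℤ | n ∈ Up d m r z x ∧ ¬ (d : ℤ) ∣ n}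

/-- From the integers not divisible by `d` to all integers. -/
theorem Up_le (hd : 2 ≤ d) {z ε : ℝ} (hε : 0 ≤ ε)
    (h : ∀ x : ℝ, 1 ≤ x → ((UpD d m r z x).ncard : ℝ) ≤ ε * x) :
    ∀ (I : ℕ) (x : ℝ), 0 ≤ x → x < (d : ℝ) ^ I → ((Up d m r z x).ncard : ℝ) ≤ 2 * ε * x := by
  have hempty : ∀ x : ℝ, x < 1 → Up d m r z x = ∅ := by
    intro x hx
    rw [Set.eq_empty_iff_forall_notMem]
    rintro n ⟨h1, h2, -⟩
    have : (1 : ℝ) ≤ n := by exact_mod_cast (by omega : 1 ≤ n)
    linarith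
  have hd2 : (2 : ℝ) ≤ d := by exact_mod_cast hd
  intro I
  induction I with
  | zero =>
    intro x hx0 hx
    rw [pow_zero] at hx
    rw [hempty x hx, Set.ncard_empty]
    push_cast
    positivity
  | succ I ih =>
    intro x hx0 hx
    rcases lt_or_ge x 1 with hx1 | hx1
    · rw [hempty x hx1, Set.ncard_empty]
      push_cast
      positivity
    · have hx' : x / d < (d : ℝ) ^ I := by
        rw [div_lt_iff₀ (by linarith)]
        rwa [pow_succ] at hx
      have h1 := ih (x / d) (by positivity) hx'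
      have h2 := h x hx1
      have hsub : Up d m r z x ⊆ UpD d m r z x ∪ (fun y : ℤ => (d : ℤ) * y) '' Up d m r z (x / d) := by
        intro n hn
        by_cases hdn : (d : ℤ) ∣ n
        · right
          obtain ⟨y, rfl⟩ := hdn
          obtain ⟨a1, a2, a3⟩ := hn
          refine ⟨y, ⟨?_, ?_, ?_⟩, rfl⟩
          · have hd0 : (0 : ℤ) < d := by exact_mod_cast (by omega : 0 < d)
            exact (mul_pos_iff_of_pos_left hd0).1 a1
          · rw [le_div_iff₀ (by linarith)]
            push_cast at a2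
            linarith
          · intro k
            have h3 := a3 (k + 1)
            rw [Function.iterate_succ_apply] at h3
            have h4 : T d m r ((d : ℤ) * y) = y := by
              have hd0 : (d : ℤ) ≠ 0 := by omega
              exact mul_left_cancel₀ hd0 (d_mul_T_of_dvd (Dvd.intro _ rfl))
            rwa [h4] at h3
        · left
          exact ⟨hn, hdn⟩
      have hfinD : (UpD d m r z x).Finite := (Up_finite z x).subset fun n hn => hn.1
      have h3 := (Set.ncard_le_ncard hsub (hfinD.union ((Up_finite z (x / d)).image _))).trans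
        (Set.ncard_union_le _ _)
      have h4 := Set.ncard_image_le (f := fun y : ℤ => (d : ℤ) * y) (Up_finite (d := d) (m := m) (r := r) z (x / d))
      have h5 : ((Up d m r z x).ncard : ℝ) ≤
          ((UpD d m r z x).ncard : ℝ) + ((Up d m r z (x / d)).ncard : ℝ) := by
        exact_mod_cast h3.trans (by omega)
      have h6 : 2 * ε * (x / d) ≤ ε * x := by
        have h7 : x / d ≤ x / 2 := by gcongr
        nlinarith
      linarith

/-- **The critical exponent.** If the number of the `n ≤ x`, not divisible by `d`, whose orbit stays above `z` is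
`o(x / z)`, uniformly in `x`, then the exceptional set is finite. -/
theorem finite_of_little (hd : 2 ≤ d) (hdm : d < m) (hco : Nat.Coprime m d)
    (hw : (m : ℝ) ≤ (d : ℝ) ^ ((d : ℝ) / ((d : ℝ) - 1))) (hr : Admissible d m r)
    (h : ∀ ε : ℝ, 0 < ε → ∃ z₀ : ℝ, ∀ x z : ℝ, 1 ≤ x → z₀ ≤ z →
      ((UpD d m r z x).ncard : ℝ) ≤ ε * x / z) : (E d m r).Finite := by
  by_contra hinf
  obtain ⟨c, K, B, hc, hK, hB0, hlow⟩ := lower hd hdm hco hw hr
  have hK0 : 0 < K := by linarith
  obtain ⟨z₀, hz₀⟩ := h (c / (4 * K)) (by positivity)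
  -- an element of `E` which is large
  obtain ⟨e, he, he1⟩ : ∃ e ∈ E d m r, max B ⌈K * max z₀ 1⌉ < e := by
    by_contra hcon
    push Not at hcon
    exact hinf ((Set.finite_Icc (1 : ℤ) (max B ⌈K * max z₀ 1⌉)).subset fun e he => ⟨he.1, hcon e he⟩)
  have heB : B < e := lt_of_le_of_lt (le_max_left _ _) he1
  have heK : K * max z₀ 1 < (e : ℝ) := by
    have h1 : ⌈K * max z₀ 1⌉ < e := lt_of_le_of_lt (le_max_right _ _) he1
    exact lt_of_le_of_lt (Int.le_ceil _) (by exact_mod_cast h1)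
  have he0 : (0 : ℝ) < e := by exact_mod_cast (by omega : 0 < e)
  set z : ℝ := e / K with hz
  have hz1 : max z₀ 1 < z := by
    rw [hz, lt_div_iff₀ hK0]
    linarith
  have hz0 : 0 < z := by
    have := le_max_right z₀ 1
    linarith
  have hzz : z₀ ≤ z := (le_max_left _ _).trans hz1.le
  obtain ⟨X₀, hX₀⟩ := hlow e he heB
  set X : ℝ := max X₀ 1 with hX
  have hX1 : 1 ≤ X := le_max_right _ _
  have h1 := hX₀ X (le_max_left _ _)
  have hd1 : (1 : ℝ) < d := by exact_mod_cast (by omega : 1 < d)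
  obtain ⟨I, hI⟩ := pow_unbounded_of_one_lt X hd1
  have h2 := Up_le (d := d) (m := m) (r := r) hd (z := z) (ε := c / (4 * K) / z) (by positivity)
    (fun x hx => (hz₀ x z hx hzz).trans (le_of_eq (by ring))) I X (by linarith) hI
  have h3 : 2 * (c / (4 * K) / z) * X < c * X / e := by
    have h4 : (e : ℝ) = K * z := by rw [hz]; field_simp
    rw [h4]
    have h5 : 2 * (c / (4 * K) / z) * X = (c * X / (K * z)) / 2 := by
      field_simp
      ring
    rw [h5]
    have h6 : 0 < c * X / (K * z) := by positivity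
    linarith
  rw [← hz] at h1
  linarith

end Pool.Agent.Helper28.CX
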